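import Pool.Agent.helper82.CH.SpecA
import Pool.Agent.helper25.TK.KE5
import Pool.Agent.helper97.TK.KE1
import Pool.Agent.helper99.TK.KE2
import Pool.Agent.helper30.TK.KE3
import Pool.Agent.helper97.TK.KE4

/-!
# Project CH (MP_2e0e07_nt), row KFV: the primes of degree one and the pole of the zeta function
-/

set_option autoImplicit false

open NumberField Complex Pool.Agent.UN

namespace Pool.Agent.CH

theorem KFV : KFV_stmt := by
  intro L _ _
  exact Pool.Agent.TK.KE5 Pool.Agent.TK.KE1 Pool.Agent.TK.KE2 Pool.Agent.TK.KE3 Pool.Agent.TK.KE4 L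

end Pool.Agent.CH
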