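import Pool.Agent.helper82.CH.SpecA

/-!
# Project CH (MP_2e0e07_nt), row LCH: the entire L-function of the primitive character of `ψ(N a)`
-/

set_option autoImplicit false

open NumberField Complex Pool.Agent.UN

namespace Pool.Agent.CH

section lch

variable {F : Type} [Field F] [NumberField F]

theorem LCH_cm (f : Ideal (𝓞 F)) (χ : Ideal (𝓞 F) → ℂ) (τ : InfinitePlace F → ℝ) (k : InfinitePlace F → ℤ)
    (h : HCharG f χ τ k) : CM χ := by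
  refine ⟨h.bot, h.one, h.mul, fun a => ?_⟩
  by_cases h0 : a = ⊥
  · rw [h0, h.bot, norm_zero]
    exact zero_le_one
  by_cases h1 : a ⊔ f = ⊤
  · exact (h.unit a h0 h1).le
  · rw [h.zero a h1, norm_zero]
    exact zero_le_one

theorem LCH_sup (a : Ideal (𝓞 F)) (p m : ℕ) (hp : p.Prime) (hpm : ¬ p ∣ m) (ha : Ideal.absNorm a = p) :
    a ⊔ Ideal.span {((m : ℕ) : 𝓞 F)} = ⊤ := by
  rw [Ideal.eq_top_iff_one]
  have h1 : ((p : ℕ) : 𝓞 F) ∈ a := by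
    rw [← ha]
    exact Ideal.absNorm_mem a
  have h2 : ((m : ℕ) : 𝓞 F) ∈ Ideal.span {((m : ℕ) : 𝓞 F)} := Ideal.subset_span rfl
  have hc : IsCoprime (p : ℤ) (m : ℤ) := Nat.isCoprime_iff_coprime.mpr ((Nat.Prime.coprime_iff_not_dvd hp).mpr hpm)
  obtain ⟨u, v, huv⟩ := hc
  have h3 : (1 : 𝓞 F) = (u : 𝓞 F) * ((p : ℕ) : 𝓞 F) + (v : 𝓞 F) * ((m : ℕ) : 𝓞 F) := by
    have h4 := congrArg (fun x : ℤ => (x : 𝓞 F)) huv
    push_cast at h4
    exact h4.symm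
  rw [h3]
  exact Ideal.add_mem _ (Ideal.mem_sup_left (Ideal.mul_mem_left _ _ h1))
    (Ideal.mem_sup_right (Ideal.mul_mem_left _ _ h2))

theorem LCH_mem (n : ℕ) (a : Ideal (𝓞 F)) : a ∈ idl F n ↔ Ideal.absNorm a = n := by
  unfold idl
  rw [Set.Finite.mem_toFinset]
  rfl

theorem LCH_card (n : ℕ) : nd F n = (idl F n).card := by
  unfold nd idl
  exact Nat.card_eq_card_finite_toFinset (Ideal.finite_setOfPred_absNorm_eq (S := 𝓞 F) n)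

theorem LCH_cc (m : ℕ) (ψ : DirichletCharacter ℂ m) (χ : Ideal (𝓞 F) → ℂ)
    (h : ∀ a : Ideal (𝓞 F), a ≠ ⊥ → a ⊔ Ideal.span {((m : ℕ) : 𝓞 F)} = ⊤ → χ a = nch F ψ a) (p : ℕ)
    (hp : p.Prime) (hpm : ¬ p ∣ m) : cc χ p = ψ ((p : ℕ) : ZMod m) * (nd F p : ℂ) := by
  unfold cc
  have h1 : ∀ a ∈ idl F p, χ a = ψ ((p : ℕ) : ZMod m) := by
    intro a ha
    rw [LCH_mem] at ha
    have h0 : a ≠ ⊥ := by
      rintro rfl
      rw [Ideal.absNorm_bot] at ha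
      exact hp.ne_zero ha.symm
    rw [h a h0 (LCH_sup a p m hp hpm ha)]
    unfold nch
    rw [if_neg h0, ha]
  rw [Finset.sum_congr rfl h1, Finset.sum_const, nsmul_eq_mul, LCH_card, mul_comm]

end lch

theorem LCH (hNCH : NCH_stmt) (hMAX : MAX_stmt) (hNTL : NTL_stmt) (hTSL : TSL_stmt) (hHLE : HLE_stmt) : LCH_stmt := by
  intro F _ _ m ψ hm
  obtain ⟨f, χ, _, hG, hχ⟩ := hMAX F (Ideal.span {((m : ℕ) : 𝓞 F)}) (nch F ψ) (hNCH F m ψ hm)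
  have hCM : CM χ := LCH_cm f χ 0 0 hG
  refine ⟨χ, hCM, fun p hp hpm => LCH_cc m ψ χ hχ p hp hpm, fun hT => ?_⟩
  obtain ⟨L, hL⟩ := hHLE F f χ 0 0 hG (hNTL F m ψ χ hm hχ hT)
  refine ⟨L, hL.entire, fun s hs => ?_⟩
  rw [hL.series s hs]
  exact (hTSL F χ hCM s hs).symm

end Pool.Agent.CH
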